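import Pool.Agent.Y508.FP.Stm

/-!
Calculus of the support point map (helper302, job FP-CAL).
-/

set_option autoImplicit false
open MeasureTheory Metric Set Filter Topology

namespace Pool.Agent.Y302.FP
open Pool.Agent.Y508 Pool.Agent.Y508.FP

lemma ev_sub_le (s t : ℝ) : ‖ev s - ev t‖ ≤ |s - t| := by
  have h1 : ‖ev s - ev t‖ ^ 2 = 2 - 2 * Real.cos (s - t) := by
    rw [norm_sq_E2, Real.cos_sub]
    simp only [PiLp.sub_apply, ev_zero, ev_one]
    nlinarith [Real.sin_sq_add_cos_sq s, Real.sin_sq_add_cos_sq t]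
  have h2 := Real.one_sub_sq_div_two_le_cos (x := s - t)
  apply abs_le_of_sq_le_sq' _ (abs_nonneg _) |>.2
  rw [h1, sq_abs]
  linarith

lemma ip_diff (x : E2) (s t : ℝ) : |ip x s - ip x t| ≤ ‖x‖ * |s - t| := by
  have h1 : ip x s - ip x t = inner ℝ x (ev s - ev t) := by
    rw [inner_sub_right, inner_ev, inner_ev]
  rw [h1]
  exact (abs_real_inner_le_norm _ _).trans
    (mul_le_mul_of_nonneg_left (ev_sub_le s t) (norm_nonneg _))

lemma ip_hasDeriv (x : E2) (t : ℝ) : HasDerivAt (fun t => ip x t) (ip x (t + Real.pi / 2)) t := by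
  have h := ((Real.hasDerivAt_cos t).const_mul (x 0)).add ((Real.hasDerivAt_sin t).const_mul (x 1))
  have e : ip x (t + Real.pi / 2) = x 0 * -Real.sin t + x 1 * Real.cos t := by
    unfold ip
    rw [Real.cos_add_pi_div_two, Real.sin_add_pi_div_two]
  rw [e]
  exact h

section

variable {K : Set E2} {x : ℝ → E2} (h : Sup K x)
include h

lemma step (θ φ : ℝ) : ‖x φ - x θ‖ ^ 2 ≤ ip (x φ - x θ) φ - ip (x φ - x θ) θ := by
  have h1 := h.ball θ (x φ) (h.mem φ)
  have h2 := h.ball φ (x θ) (h.mem θ)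
  have e : ip (x θ - x φ) φ = -ip (x φ - x θ) φ := by
    rw [ip_sub, ip_sub]
    ring
  rw [norm_sub_rev, e] at h2
  linarith

lemma lip (θ φ : ℝ) : ‖x φ - x θ‖ ≤ |φ - θ| := by
  have h1 := step h θ φ
  have h2 := (le_abs_self _).trans (ip_diff (x φ - x θ) φ θ)
  by_contra hc
  push Not at hc
  have h3 := abs_nonneg (φ - θ)
  nlinarith

lemma sup_bd (θ : ℝ) : ‖x θ‖ ≤ ‖x 0‖ + 2 := by
  have h1 := h.ball θ (x 0) (h.mem 0)
  have h2 := abs_ip_le (x 0 - x θ) θ
  have h3 : ‖x 0 - x θ‖ ≤ 2 := by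
    by_contra hc
    push Not at hc
    have := (abs_le.1 h2).1
    nlinarith
  have h4 := norm_sub_norm_le (x θ) (x 0)
  rw [norm_sub_rev] at h4
  linarith

lemma der_h (θ : ℝ) : HasDerivAt (fun t => ip (x t) t) (ip (x θ) (θ + Real.pi / 2)) θ := by
  have hg := ip_hasDeriv (x θ) θ
  have he : HasDerivAt (fun t => ip (x t - x θ) t) 0 θ := by
    rw [hasDerivAt_iff_isLittleO]
    have hb : ∀ t, |ip (x t - x θ) t| ≤ 1 * ‖‖t - θ‖ ^ 2‖ := by
      intro t
      have h1 := h.ball θ (x t) (h.mem t)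
      have h2 := h.ball t (x θ) (h.mem θ)
      have e : ip (x θ - x t) t = -ip (x t - x θ) t := by
        rw [ip_sub, ip_sub]
        ring
      have h3 : 0 ≤ ip (x t - x θ) t := by
        rw [e] at h2
        nlinarith [sq_nonneg ‖x θ - x t‖]
      have h4 : ip (x t - x θ) θ ≤ 0 := by nlinarith [sq_nonneg ‖x t - x θ‖]
      have h5 := (le_abs_self _).trans (ip_diff (x t - x θ) t θ)
      have h6 := mul_le_mul_of_nonneg_right (lip h θ t) (abs_nonneg (t - θ))
      rw [abs_of_nonneg h3, one_mul, norm_pow, norm_norm, Real.norm_eq_abs, sq]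
      linarith
    have hb' : ∀ t, ‖(fun t => ip (x t - x θ) t) t‖ ≤ 1 * ‖‖t - θ‖ ^ 2‖ := hb
    have h1 := (Asymptotics.IsBigO.of_bound 1 (Filter.Eventually.of_forall hb')).trans_isLittleO
      (Asymptotics.isLittleO_pow_sub_sub θ (m := 2) (by norm_num))
    refine h1.congr_left fun t => ?_
    simp [ip]
  have h2 := hg.add he
  rw [add_zero] at h2
  refine h2.congr_of_eventuallyEq (Filter.Eventually.of_forall fun t => ?_)
  show ip (x t) t = ip (x θ) t + ip (x t - x θ) t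
  rw [ip_sub]
  ring

lemma lip1 : ∃ C : NNReal, LipschitzWith C (fun t => ip (x t) (t + Real.pi / 2)) := by
  refine ⟨_, LipschitzWith.of_dist_le' (K := 1 + (‖x 0‖ + 2)) fun s t => ?_⟩
  rw [Real.dist_eq, Real.dist_eq]
  have h1 : ip (x s) (s + Real.pi / 2) - ip (x t) (t + Real.pi / 2)
      = ip (x s - x t) (s + Real.pi / 2) +
        (ip (x t) (s + Real.pi / 2) - ip (x t) (t + Real.pi / 2)) := by
    rw [ip_sub]
    ring
  rw [h1]
  have h2 := abs_ip_le (x s - x t) (s + Real.pi / 2)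
  have h3 := lip h t s
  have h4 := ip_diff (x t) (s + Real.pi / 2) (t + Real.pi / 2)
  have h5 := mul_le_mul_of_nonneg_right (sup_bd h t) (abs_nonneg (s - t))
  rw [add_sub_add_right_eq_sub] at h4
  refine (abs_add_le _ _).trans ?_
  linarith

lemma mid {θ φ : ℝ} (h1 : θ < φ) (h2 : φ < θ + Real.pi) :
    0 ≤ ip (x φ - x θ) ((φ + θ) / 2 + Real.pi / 2) := by
  have h3 := step h θ φ
  have h4 : ip (x φ - x θ) φ - ip (x φ - x θ) θ
      = 2 * Real.sin ((φ - θ) / 2) * ip (x φ - x θ) ((φ + θ) / 2 + Real.pi / 2) := by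
    have e1 := Real.cos_sub_cos φ θ
    have e2 := Real.sin_sub_sin φ θ
    unfold ip
    rw [Real.cos_add_pi_div_two, Real.sin_add_pi_div_two]
    linear_combination ((x φ - x θ) 0) * e1 + ((x φ - x θ) 1) * e2
  have h5 : 0 < Real.sin ((φ - θ) / 2) :=
    Real.sin_pos_of_pos_of_lt_pi (by linarith) (by linarith)
  rw [h4] at h3
  by_contra hc
  push Not at hc
  have h6 := sq_nonneg ‖x φ - x θ‖
  nlinarith [mul_pos h5 (neg_pos.2 hc)]

lemma der1 (θ : ℝ) (hd : DifferentiableAt ℝ (fun t => ip (x t) (t + Real.pi / 2)) θ) :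
    0 ≤ deriv (fun t => ip (x t) (t + Real.pi / 2)) θ + ip (x θ) θ ∧
      deriv (fun t => ip (x t) (t + Real.pi / 2)) θ + ip (x θ) θ ≤ 1 := by
  obtain ⟨D, hD⟩ : ∃ D : ℝ, D = deriv (fun t => ip (x t) (t + Real.pi / 2)) θ := ⟨_, rfl⟩
  rw [← hD]
  have h1 : HasDerivAt (fun t => ip (x t) (t + Real.pi / 2)) D θ := by
    rw [hD]
    exact hd.hasDerivAt
  have h2 : HasDerivAt (fun t => ip (x θ) (t + Real.pi / 2)) (-ip (x θ) θ) θ := by
    have h3 := (ip_hasDeriv (x θ) (θ + Real.pi / 2)).comp_add_const θ (Real.pi / 2)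
    have e : ip (x θ) (θ + Real.pi / 2 + Real.pi / 2) = -ip (x θ) θ := by
      rw [show θ + Real.pi / 2 + Real.pi / 2 = θ + Real.pi by ring, ip_add_pi]
    rw [e] at h3
    exact h3
  have h3 : HasDerivAt (fun t => ip (x t - x θ) (t + Real.pi / 2)) (D + ip (x θ) θ) θ := by
    have h4 := h1.sub h2
    rw [sub_neg_eq_add] at h4
    refine h4.congr_of_eventuallyEq (Filter.Eventually.of_forall fun t => ?_)
    show ip (x t - x θ) (t + Real.pi / 2) = ip (x t) (t + Real.pi / 2) - ip (x θ) (t + Real.pi / 2)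
    rw [ip_sub]
  have h4 : Tendsto (slope (fun t => ip (x t - x θ) (t + Real.pi / 2)) θ) (𝓝[>] θ)
      (𝓝 (D + ip (x θ) θ)) :=
    (hasDerivAt_iff_tendsto_slope.1 h3).mono_left (nhdsWithin_mono _ fun t ht => (ne_of_gt ht))
  have hb : ∀ᶠ t in 𝓝[>] θ, t ∈ Ioo θ (θ + Real.pi) :=
    Ioo_mem_nhdsGT (by linarith [Real.pi_pos])
  have hsl : ∀ t ∈ Ioo θ (θ + Real.pi),
      -((t - θ) / 2) ≤ slope (fun t => ip (x t - x θ) (t + Real.pi / 2)) θ t ∧
      slope (fun t => ip (x t - x θ) (t + Real.pi / 2)) θ t ≤ 1 + (t - θ) / 2 := by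
    intro t ht
    have hpos : 0 < t - θ := by linarith [ht.1]
    have e0 : ip (x θ - x θ) (θ + Real.pi / 2) = 0 := by simp [ip]
    have e1 : slope (fun t => ip (x t - x θ) (t + Real.pi / 2)) θ t
        = ip (x t - x θ) (t + Real.pi / 2) / (t - θ) := by
      rw [slope_def_field, e0, sub_zero]
    rw [e1]
    have m1 := mid h ht.1 ht.2
    have m2 := ip_diff (x t - x θ) (t + Real.pi / 2) ((t + θ) / 2 + Real.pi / 2)
    have m3 := lip h θ t
    have m4 := abs_ip_le (x t - x θ) ((t + θ) / 2 + Real.pi / 2)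
    rw [abs_of_pos hpos] at m3
    have e2 : t + Real.pi / 2 - ((t + θ) / 2 + Real.pi / 2) = (t - θ) / 2 := by ring
    rw [e2, abs_of_pos (by linarith : 0 < (t - θ) / 2)] at m2
    have m5 : ‖x t - x θ‖ * ((t - θ) / 2) ≤ (t - θ) * ((t - θ) / 2) :=
      mul_le_mul_of_nonneg_right m3 (by linarith)
    have m6 := abs_le.1 m2
    have m7 := (abs_le.1 m4).2
    constructor
    · rw [le_div_iff₀ hpos]
      nlinarith
    · rw [div_le_iff₀ hpos]
      nlinarith
  have hl : Tendsto (fun t : ℝ => t - θ) (𝓝[>] θ) (𝓝 0) := by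
    have : Tendsto (fun t : ℝ => t - θ) (𝓝 θ) (𝓝 (θ - θ)) := tendsto_id.sub_const θ
    rw [sub_self] at this
    exact this.mono_left nhdsWithin_le_nhds
  refine ⟨?_, ?_⟩
  · have hl2 : Tendsto (fun t : ℝ => -((t - θ) / 2)) (𝓝[>] θ) (𝓝 0) := by
      have := (hl.div_const 2).neg
      simpa using this
    exact le_of_tendsto_of_tendsto hl2 h4 (hb.mono fun t ht => (hsl t ht).1)
  · have hl2 : Tendsto (fun t : ℝ => 1 + (t - θ) / 2) (𝓝[>] θ) (𝓝 1) := by
      have := (hl.div_const 2).const_add 1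
      simpa using this
    exact le_of_tendsto_of_tendsto h4 hl2 (hb.mono fun t ht => (hsl t ht).2)

end

theorem cal : CalStm := fun _ _ h =>
  ⟨fun θ φ => lip h φ θ, der_h h, lip1 h, fun θ hd => der1 h θ hd⟩

end Pool.Agent.Y302.FP
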