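import Pool.Agent.Y508.FP.Stm

/-!
Sum over the gaps of a closed set (helper302, job FP-GAPSUM).
-/

set_option autoImplicit false
open MeasureTheory Metric Set Filter Topology

namespace Pool.Agent.Y302.FP
open Pool.Agent.Y508 Pool.Agent.Y508.FP

theorem gapsum : GapSumStm := by
  intro S F α β hS hα hβ hαβ hF hpos hgap
  have hint : IntegrableOn F (Icc α β) := (intervalIntegrable_iff_integrableOn_Icc_of_le hαβ).1 hF
  obtain ⟨G, hG⟩ : ∃ G : Set (ℝ × ℝ), G = {q : ℝ × ℝ | q.1 ∈ S ∧ q.2 ∈ S ∧ α ≤ q.1 ∧ q.1 < q.2 ∧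
      q.2 ≤ β ∧ ∀ t ∈ Ioo q.1 q.2, t ∉ S} := ⟨_, rfl⟩
  have hG' : ∀ q ∈ G, q.1 ∈ S ∧ q.2 ∈ S ∧ α ≤ q.1 ∧ q.1 < q.2 ∧
      q.2 ≤ β ∧ ∀ t ∈ Ioo q.1 q.2, t ∉ S := fun q hq => by
    rw [hG] at hq
    exact hq
  have hdis : G.PairwiseDisjoint (fun q => Ioo q.1 q.2) := by
    intro q hq q' hq' hne
    show Disjoint (Ioo q.1 q.2) (Ioo q'.1 q'.2)
    rw [Set.disjoint_left]
    intro t ht ht'
    apply hne
    obtain ⟨h1, h2, -, -, -, h3⟩ := hG' q hq
    obtain ⟨h1', h2', -, -, -, h3'⟩ := hG' q' hq'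
    refine Prod.ext ?_ ?_
    · rcases lt_trichotomy q.1 q'.1 with h | h | h
      · exact absurd h1' (h3 _ ⟨h, ht'.1.trans ht.2⟩)
      · exact h
      · exact absurd h1 (h3' _ ⟨h, ht.1.trans ht'.2⟩)
    · rcases lt_trichotomy q.2 q'.2 with h | h | h
      · exact absurd h2 (h3' _ ⟨ht'.1.trans ht.2, h⟩)
      · exact h
      · exact absurd h2' (h3 _ ⟨ht.1.trans ht'.2, h⟩)
  have hcount : G.Countable := hdis.countable_of_isOpen (fun _ _ => isOpen_Ioo)
    (fun q hq => nonempty_Ioo.2 (hG' q hq).2.2.2.1)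
  have hC : Countable G := hcount.to_subtype
  have hun : ⋃ q : G, Ioo q.1.1 q.1.2 = Icc α β \ S := by
    ext t
    rw [mem_iUnion]
    constructor
    · rintro ⟨⟨q, hq⟩, ht⟩
      obtain ⟨-, -, h1, -, h2, h3⟩ := hG' q hq
      exact ⟨⟨h1.trans ht.1.le, ht.2.le.trans h2⟩, h3 t ht⟩
    · rintro ⟨ht, htS⟩
      have c1 : IsCompact (S ∩ Icc α t) := isCompact_Icc.inter_left hS
      have c2 : IsCompact (S ∩ Icc t β) := isCompact_Icc.inter_left hS
      have m1 := c1.sSup_mem ⟨α, hα, le_rfl, ht.1⟩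
      have m2 := c2.sInf_mem ⟨β, hβ, ht.2, le_rfl⟩
      have l1 : sSup (S ∩ Icc α t) < t :=
        lt_of_le_of_ne m1.2.2 fun h => htS (h ▸ m1.1)
      have l2 : t < sInf (S ∩ Icc t β) :=
        lt_of_le_of_ne m2.2.1 fun h => htS (h ▸ m2.1)
      refine ⟨⟨(sSup (S ∩ Icc α t), sInf (S ∩ Icc t β)), ?_⟩, l1, l2⟩
      rw [hG]
      refine ⟨m1.1, m2.1, m1.2.1, l1.trans l2, m2.2.2, fun u hu huS => ?_⟩
      rcases le_total u t with h | h
      · have : u ≤ sSup (S ∩ Icc α t) :=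
          le_csSup c1.bddAbove ⟨huS, m1.2.1.trans hu.1.le, h⟩
        exact absurd hu.1 (not_lt.2 this)
      · have : sInf (S ∩ Icc t β) ≤ u :=
          csInf_le c2.bddBelow ⟨huS, h, hu.2.le.trans m2.2.2⟩
        exact absurd hu.2 (not_lt.2 this)
  rw [intervalIntegral.integral_of_le hαβ, ← integral_Icc_eq_integral_Ioc,
    ← integral_inter_add_diff hS.measurableSet hint]
  apply add_nonneg
  · apply setIntegral_nonneg_ae (measurableSet_Icc.inter hS.measurableSet)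
    filter_upwards [hpos] with t ht h
    exact ht h.2 h.1.1 h.1.2
  · rw [← hun, integral_iUnion (fun _ => measurableSet_Ioo) ?_ (by
      rw [hun]
      exact hint.mono_set diff_subset)]
    · apply tsum_nonneg
      rintro ⟨q, hq⟩
      obtain ⟨h1, h2, h3, h4, h5, h6⟩ := hG' q hq
      have h7 := hgap q.1 q.2 h1 h2 h3 h4 h5 h6
      rw [intervalIntegral.integral_of_le h4.le, integral_Ioc_eq_integral_Ioo] at h7
      exact h7
    · rintro ⟨q, hq⟩ ⟨q', hq'⟩ hne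
      exact hdis hq hq' fun h => hne (Subtype.ext h)

end Pool.Agent.Y302.FP
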